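import Pool.Agent.Helper39.MR.MIN2

/-!
# Minor arcs (module MIN)
-/

set_option autoImplicit false

open Finset MeasureTheory
open scoped BigOperators Nat ComplexConjugate

namespace Pool.Agent.Helper40.MR

/-! ### the Ramare identity -/

theorem min_mem_PrI {P Q : ℝ} (hP : 0 ≤ P) {p : ℕ} :
    p ∈ PrI P Q ↔ p.Prime ∧ P < p ∧ (p : ℝ) ≤ Q := by
  unfold PrI IocN
  rw [mem_filter, mem_Ioc, Nat.floor_lt hP]
  constructor
  · rintro ⟨⟨h1, h2⟩, h3⟩
    refine ⟨h3, h1, ?_⟩
    by_contra h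
    push Not at h
    rcases le_or_gt 0 Q with hQ | hQ
    · exact absurd ((Nat.le_floor_iff hQ).1 h2) (not_le.2 h)
    · rw [Nat.floor_of_nonpos hQ.le] at h2
      have := h3.pos
      omega
  · rintro ⟨h1, h2, h3⟩
    exact ⟨⟨h2, Nat.le_floor h3⟩, h1⟩

theorem min_Om_mul {P Q : ℝ} {p m : ℕ} (hp : p ∈ PrI P Q) (hpp : p.Prime) (hm : m ≠ 0) :
    Om P Q (p * m) = Om P Q m + 1 := by
  classical
  unfold Om
  have h1 : ∀ r ∈ PrI P Q, (p * m).factorization r = m.factorization r + if r = p then 1 else 0 := by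
    intro r _
    rw [Nat.factorization_mul hpp.ne_zero hm, Finsupp.add_apply, hpp.factorization,
      Finsupp.single_apply, add_comm]
    congr 1
    by_cases h : r = p
    · rw [if_pos h, if_pos h.symm]
    · rw [if_neg h, if_neg fun h' => h h'.symm]
  rw [sum_congr rfl h1, sum_add_distrib, sum_ite_eq' (PrI P Q) p, if_pos hp]

open Classical in
/-- the Ramare identity with its error term -/
theorem min_ramare {P Q : ℝ} (hP : 0 ≤ P) {f : ℕ → ℂ} {s : ℕ → Prop} (hf : CM f) (hs : Inv P Q s)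
    {n : ℕ} (hn : n ≠ 0) :
    ∃ e : ℂ, ‖e‖ ≤ 1 ∧ ((∀ p ∈ PrI P Q, ¬ p ^ 2 ∣ n) → e = 0) ∧
    (if s n ∧ Hit P Q n then f n else 0)
      = ∑ p ∈ (PrI P Q).filter (fun p => p ∣ n), f p * bco P Q f s (n / p) + e := by
  set D := (PrI P Q).filter (fun p => p ∣ n) with hD
  -- the terms
  have hterm : ∀ p ∈ D, f p * bco P Q f s (n / p) = if s n then f n / (Om P Q n : ℂ) else 0 := by
    intro p hp
    rw [hD, mem_filter] at hp
    obtain ⟨hpI, m, rfl⟩ := hp
    have hpI' := (min_mem_PrI hP).1 hpI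
    have hp0 : 0 < p := hpI'.1.pos
    have hm0 : m ≠ 0 := fun h => hn (by rw [h, mul_zero])
    rw [Nat.mul_div_cancel_left m hp0]
    have h1 := hs p m hpI'.1 hpI'.2.1 hpI'.2.2 (Nat.pos_of_ne_zero hm0)
    unfold bco
    by_cases h : s m
    · rw [if_pos h, if_pos (h1.2 h), min_Om_mul hpI hpI'.1 hm0, hf.2.1]
      push_cast
      ring
    · rw [if_neg h, if_neg fun h' => h (h1.1 h'), mul_zero]
  have hsum : ∑ p ∈ D, f p * bco P Q f s (n / p)
      = D.card * (if s n then f n / (Om P Q n : ℂ) else 0) := by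
    rw [sum_congr rfl hterm, sum_const, nsmul_eq_mul]
  -- number of primes and multiplicity
  have hle : D.card ≤ Om P Q n := by
    unfold Om
    rw [hD, card_eq_sum_ones, sum_filter]
    refine sum_le_sum fun p hp => ?_
    split_ifs with h
    · exact ((min_mem_PrI hP).1 hp).1.factorization_pos_of_dvd hn h
    · exact Nat.zero_le _
  have heq : (∀ p ∈ PrI P Q, ¬ p ^ 2 ∣ n) → D.card = Om P Q n := by
    intro h2
    unfold Om
    rw [hD, card_eq_sum_ones, sum_filter]
    refine sum_congr rfl fun p hp => ?_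
    have hpp := ((min_mem_PrI hP).1 hp).1
    split_ifs with h
    · have a1 := hpp.factorization_pos_of_dvd hn h
      have a2 : ¬ 2 ≤ n.factorization p := fun h3 =>
        h2 p hp ((hpp.pow_dvd_iff_le_factorization hn).2 h3)
      omega
    · exact (Nat.factorization_eq_zero_of_not_dvd h).symm
  by_cases hh : Hit P Q n
  · obtain ⟨p, hp1, hp2, hp3, hp4⟩ := hh
    have hpI : p ∈ PrI P Q := (min_mem_PrI hP).2 ⟨hp1, hp2, hp3⟩
    have hDpos : 0 < D.card := card_pos.2 ⟨p, by rw [hD, mem_filter]; exact ⟨hpI, hp4⟩⟩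
    by_cases hsn : s n
    · refine ⟨f n * (1 - (D.card : ℂ) / (Om P Q n : ℂ)), ?_, ?_, ?_⟩
      · have h3 : (D.card : ℝ) / (Om P Q n : ℝ) ≤ 1 := by
          apply div_le_one_of_le₀ _ (by positivity)
          exact_mod_cast hle
        have h4 : 0 ≤ (D.card : ℝ) / (Om P Q n : ℝ) := by positivity
        have h5 : (1 - (D.card : ℂ) / (Om P Q n : ℂ))
            = ((1 - (D.card : ℝ) / (Om P Q n : ℝ) : ℝ) : ℂ) := by push_cast; rfl
        rw [h5, norm_mul, Complex.norm_real, Real.norm_eq_abs, abs_of_nonneg (by linarith)]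
        exact mul_le_one₀ (hf.2.2 n) (by linarith) (by linarith)
      · intro h2
        rw [heq h2]
        have : (Om P Q n : ℂ) ≠ 0 := by
          have := heq h2
          exact_mod_cast (by omega : Om P Q n ≠ 0)
        rw [div_self this, sub_self, mul_zero]
      · rw [if_pos ⟨hsn, ⟨p, hp1, hp2, hp3, hp4⟩⟩, hsum, if_pos hsn]
        ring
    · refine ⟨0, by simp, fun _ => rfl, ?_⟩
      rw [if_neg fun h => hsn h.1, hsum, if_neg hsn, mul_zero, add_zero]
  · refine ⟨0, by simp, fun _ => rfl, ?_⟩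
    have hD0 : D = ∅ := by
      rw [hD, filter_eq_empty_iff]
      intro p hp hpn
      have := (min_mem_PrI hP).1 hp
      exact hh ⟨p, this.1, this.2.1, this.2.2, hpn⟩
    rw [if_neg fun h => hh h.2, hD0, sum_empty, add_zero]

/-! ### counting multiples of squares -/

theorem min_squares {P Q X : ℝ} (hP : 2 ≤ P) (hX : 0 ≤ X) :
    ((((range (⌊2 * X⌋₊ + 1)).filter fun n => n ≠ 0 ∧ ∃ p ∈ PrI P Q, p ^ 2 ∣ n).card : ℕ) : ℝ)
      ≤ 4 * X / P := by
  classical
  have hP0 : 0 ≤ P := by linarith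
  have h1 : ((range (⌊2 * X⌋₊ + 1)).filter fun n => n ≠ 0 ∧ ∃ p ∈ PrI P Q, p ^ 2 ∣ n)
      ⊆ (PrI P Q).biUnion fun p => (Ioc 0 ⌊2 * X⌋₊).filter fun n => p ^ 2 ∣ n := by
    intro n hn
    rw [mem_filter, mem_range] at hn
    obtain ⟨h1, h2, p, hp, hpn⟩ := hn
    rw [mem_biUnion]
    refine ⟨p, hp, ?_⟩
    rw [mem_filter, mem_Ioc]
    exact ⟨⟨by omega, by omega⟩, hpn⟩
  have h2 : ((((range (⌊2 * X⌋₊ + 1)).filter fun n => n ≠ 0 ∧ ∃ p ∈ PrI P Q, p ^ 2 ∣ n).card : ℕ) : ℝ)
      ≤ ∑ p ∈ PrI P Q, (2 * X) * ((p : ℝ) ^ 2)⁻¹ := by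
    have h3 := (card_le_card h1).trans card_biUnion_le
    calc _ ≤ ((∑ p ∈ PrI P Q, ((Ioc 0 ⌊2 * X⌋₊).filter fun n => p ^ 2 ∣ n).card : ℕ) : ℝ) := by
          exact_mod_cast h3
      _ = ∑ p ∈ PrI P Q, ((⌊2 * X⌋₊ / p ^ 2 : ℕ) : ℝ) := by
          push_cast
          refine sum_congr rfl fun p _ => ?_
          rw [Nat.Ioc_filter_dvd_card_eq_div]
      _ ≤ _ := by
          refine sum_le_sum fun p _ => ?_
          refine Nat.cast_div_le.trans ?_
          push_cast
          rw [div_eq_mul_inv]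
          gcongr
          exact Nat.floor_le (by linarith)
  refine h2.trans ?_
  rw [← mul_sum]
  have hfl : 1 ≤ ⌊P⌋₊ := Nat.le_floor (by push_cast; linarith)
  have h4 : ∑ p ∈ PrI P Q, ((p : ℝ) ^ 2)⁻¹ ≤ (⌊P⌋₊ : ℝ)⁻¹ := by
    have h5 : PrI P Q ⊆ Ioc ⌊P⌋₊ ⌊Q⌋₊ := filter_subset _ _
    refine (sum_le_sum_of_subset_of_nonneg h5 fun _ _ _ => by positivity).trans ?_
    rcases le_or_gt ⌊P⌋₊ ⌊Q⌋₊ with h6 | h6
    · refine (sum_Ioc_inv_sq_le_sub (α := ℝ) (by omega) h6).trans ?_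
      have : (0 : ℝ) ≤ (⌊Q⌋₊ : ℝ)⁻¹ := by positivity
      linarith
    · rw [Ioc_eq_empty (by omega), sum_empty]
      positivity
  have h7 : (⌊P⌋₊ : ℝ)⁻¹ ≤ 2 / P := by
    have h8 : P / 2 ≤ (⌊P⌋₊ : ℝ) := by
      have := Nat.lt_floor_add_one P
      linarith
    rw [show 2 / P = (P / 2)⁻¹ by rw [inv_div]]
    exact inv_anti₀ (by linarith) h8
  calc 2 * X * ∑ p ∈ PrI P Q, ((p : ℝ) ^ 2)⁻¹ ≤ 2 * X * (2 / P) := by
        gcongr
        exact h4.trans h7
    _ = 4 * X / P := by ring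

/-! ### the dyadic decomposition -/

theorem min_dyadic {P : ℝ} (S : Finset ℕ) (hS : ∀ p ∈ S, P < p) (G : ℕ → ℂ) (I : ℕ) :
    ∑ p ∈ S.filter (fun p : ℕ => (p : ℝ) ≤ P * 2 ^ I), G p
      = ∑ i ∈ range I, ∑ p ∈ S.filter (fun p : ℕ => P * 2 ^ i < p ∧ (p : ℝ) ≤ P * 2 ^ (i + 1)), G p := by
  classical
  induction I with
  | zero =>
    rw [range_zero, sum_empty]
    have : S.filter (fun p : ℕ => (p : ℝ) ≤ P * 2 ^ 0) = ∅ := by
      rw [filter_eq_empty_iff]
      intro p hp h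
      rw [pow_zero, mul_one] at h
      exact absurd h (not_le.2 (hS p hp))
    rw [this, sum_empty]
  | succ I ih =>
    rw [sum_range_succ, ← ih]
    rw [← sum_filter_add_sum_filter_not (S.filter (fun p : ℕ => (p : ℝ) ≤ P * 2 ^ (I + 1)))
      (fun p : ℕ => (p : ℝ) ≤ P * 2 ^ I)]
    congr 1
    · refine sum_congr ?_ fun _ _ => rfl
      ext p
      simp only [mem_filter]
      constructor
      · rintro ⟨⟨h1, _⟩, h3⟩; exact ⟨h1, h3⟩
      · rintro ⟨h1, h3⟩
        refine ⟨⟨h1, ?_⟩, h3⟩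
        have h4 := hS p h1
        rcases le_or_gt 0 P with hP | hP
        · refine h3.trans ?_
          gcongr
          · norm_num
          · omega
        · exfalso
          have : (0 : ℝ) ≤ p := Nat.cast_nonneg p
          have h5 : P * 2 ^ I < 0 := mul_neg_of_neg_of_pos hP (by positivity)
          linarith
    · refine sum_congr ?_ fun _ _ => rfl
      ext p
      simp only [mem_filter, not_le]
      constructor
      · rintro ⟨⟨h1, h2⟩, h3⟩; exact ⟨h1, h3, h2⟩
      · rintro ⟨h1, h3, h2⟩; exact ⟨⟨h1, h2⟩, h3⟩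

/-- multiples of `p` in `(X, 2X]` -/
theorem min_reindex {X R : ℝ} (hX : 0 < X) (hR : 0 < R) {p : ℕ} (hp : R < p) (F : ℕ → ℕ → ℂ) :
    ∑ n ∈ (range (⌊2 * X⌋₊ + 1)).filter (fun n : ℕ => X < n ∧ p ∣ n), F (n / p) n
      = ∑ k ∈ (Icc 1 ⌊2 * X / R⌋₊).filter
        (fun k => X < ((p * k : ℕ) : ℝ) ∧ ((p * k : ℕ) : ℝ) ≤ 2 * X), F k (p * k) := by
  have hp0 : 0 < p := by
    have : (0 : ℝ) < p := hR.trans hp
    exact_mod_cast this
  have h2X : 0 ≤ 2 * X := by linarith
  refine sum_nbij' (fun n => n / p) (fun k => p * k) ?_ ?_ ?_ ?_ ?_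
  · intro n hn
    rw [mem_filter, mem_range] at hn
    obtain ⟨h1, h2, k, rfl⟩ := hn
    rw [Nat.mul_div_cancel_left k hp0, mem_filter, mem_Icc]
    have h3 : ((p * k : ℕ) : ℝ) ≤ 2 * X := (Nat.le_floor_iff h2X).1 (by omega)
    refine ⟨⟨?_, ?_⟩, h2, h3⟩
    · rcases Nat.eq_zero_or_pos k with h | h
      · rw [h, mul_zero, Nat.cast_zero] at h2
        linarith
      · exact h
    · apply Nat.le_floor
      rw [le_div_iff₀ hR]
      push_cast at h3
      have : (0 : ℝ) ≤ k := Nat.cast_nonneg k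
      nlinarith
  · intro k hk
    rw [mem_filter, mem_Icc] at hk
    rw [mem_filter, mem_range]
    exact ⟨Nat.lt_succ_of_le (Nat.le_floor hk.2.2), hk.2.1, Dvd.intro k rfl⟩
  · intro n hn
    rw [mem_filter] at hn
    exact Nat.mul_div_cancel' hn.2.2
  · intro k _
    exact Nat.mul_div_cancel_left k hp0
  · intro n hn
    rw [mem_filter] at hn
    rw [Nat.mul_div_cancel' hn.2.2]

theorem st_MIN (hK : ST_KER) : ST_MIN := by
  classical
  obtain ⟨C1, hC1, hcl⟩ := min_class hK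
  refine ⟨2 * Real.sqrt C1 + 4, by positivity, ?_⟩
  intro P Q X θ f s L q a hP hPQ hQL hLX hf hs hq hcop happ
  set N := ⌊2 * X⌋₊ + 1 with hN
  have hP0 : 0 < P := by linarith
  have hQ0 : 0 < Q := by linarith
  have hX0 : 0 < X := by linarith
  have hL0 : (0 : ℝ) < L := by linarith
  have hq0 : (0 : ℝ) < q := by exact_mod_cast hq
  have hq1 : (1 : ℝ) ≤ q := by exact_mod_cast hq
  have hlog : 0 ≤ Real.log (2 * q) := Real.log_nonneg (by linarith)
  set A := res (fun n : ℕ => X < n ∧ (n : ℝ) ≤ 2 * X ∧ s n ∧ Hit P Q n) f with hA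
  have hA0 : ∀ n, N ≤ n → A n = 0 := by
    intro n hn
    rw [hA]
    unfold res
    rw [if_neg]
    rintro ⟨_, h2, _⟩
    have := Nat.le_floor h2
    omega
  obtain ⟨ph, hph, hdual⟩ := min_dual N L θ A hA0
  refine hdual.trans ?_
  -- the error term
  have hram : ∀ n : ℕ, ∃ e : ℂ, ‖e‖ ≤ 1 ∧
      (¬ (n ≠ 0 ∧ ∃ p ∈ PrI P Q, p ^ 2 ∣ n) → e = 0) ∧ (n ∈ range N → A n =
        (if X < n then ∑ p ∈ (PrI P Q).filter (fun p => p ∣ n), f p * bco P Q f s (n / p) else 0) + e) := by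
    intro n
    by_cases hn : X < n
    · have hn0 : n ≠ 0 := by
        rintro rfl
        rw [Nat.cast_zero] at hn
        linarith
      obtain ⟨e, h1, h2, h3⟩ := min_ramare hP0.le hf hs hn0
      refine ⟨e, h1, fun h4 => h2 fun p hp hpn => h4 ⟨hn0, p, hp, hpn⟩, fun hnN => ?_⟩
      rw [if_pos hn, ← h3, hA]
      unfold res
      have h4 : (n : ℝ) ≤ 2 * X := by
        rw [mem_range] at hnN
        exact (Nat.le_floor_iff (by linarith)).1 (by omega)
      by_cases h5 : s n ∧ Hit P Q n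
      · rw [if_pos ⟨hn, h4, h5.1, h5.2⟩, if_pos h5]
      · rw [if_neg fun h6 => h5 ⟨h6.2.2.1, h6.2.2.2⟩, if_neg h5]
    · refine ⟨0, by simp, fun _ => rfl, fun _ => ?_⟩
      rw [if_neg hn, hA]
      unfold res
      rw [if_neg fun h => hn h.1, add_zero]
  choose e he1 he2 he3 using hram
  -- splitting
  have hsplit : ∑ n ∈ range N, A n * ee (n * θ) * min_Th N L θ ph n
      = ∑ p ∈ PrI P Q, f p * ∑ n ∈ (range N).filter (fun n : ℕ => X < n ∧ p ∣ n),
          bco P Q f s (n / p) * ee (n * θ) * min_Th N L θ ph n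
        + ∑ n ∈ range N, e n * ee (n * θ) * min_Th N L θ ph n := by
    have e1 : ∑ p ∈ PrI P Q, f p * ∑ n ∈ (range N).filter (fun n : ℕ => X < n ∧ p ∣ n),
          bco P Q f s (n / p) * ee (n * θ) * min_Th N L θ ph n
        = ∑ n ∈ range N, (if X < n then ∑ p ∈ (PrI P Q).filter (fun p => p ∣ n),
          f p * bco P Q f s (n / p) else 0) * ee (n * θ) * min_Th N L θ ph n := by
      simp only [mul_sum]
      rw [sum_congr rfl fun p _ => sum_filter _ _, sum_comm]
      refine sum_congr rfl fun n _ => ?_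
      by_cases hn : X < n
      · rw [if_pos hn, sum_filter, sum_mul, sum_mul]
        refine sum_congr rfl fun p _ => ?_
        by_cases hpn : p ∣ n
        · rw [if_pos ⟨hn, hpn⟩, if_pos hpn]; ring
        · rw [if_neg fun h => hpn h.2, if_neg hpn]; ring
      · rw [if_neg hn, zero_mul, zero_mul]
        refine sum_eq_zero fun p _ => ?_
        rw [if_neg fun h => hn h.1]
    rw [e1, ← sum_add_distrib]
    refine sum_congr rfl fun n hn => ?_
    rw [he3 n hn]
    ring
  rw [hsplit]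
  -- the error
  have herr : ‖∑ n ∈ range N, e n * ee (n * θ) * min_Th N L θ ph n‖ ≤ 4 * X / P * L := by
    calc ‖∑ n ∈ range N, e n * ee (n * θ) * min_Th N L θ ph n‖
        ≤ ∑ n ∈ range N, (if n ≠ 0 ∧ ∃ p ∈ PrI P Q, p ^ 2 ∣ n then (L : ℝ) else 0) := by
          refine (norm_sum_le _ _).trans (sum_le_sum fun n _ => ?_)
          split_ifs with h
          · rw [norm_mul, norm_mul, min_norm_ee, mul_one]
            calc ‖e n‖ * ‖min_Th N L θ ph n‖ ≤ 1 * L := by
                  gcongr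
                  · exact he1 n
                  · exact min_norm_Th N L θ ph hph n
              _ = L := one_mul _
          · rw [he2 n h]; simp
      _ = (((range N).filter fun n => n ≠ 0 ∧ ∃ p ∈ PrI P Q, p ^ 2 ∣ n).card : ℝ) * L := by
          rw [← sum_filter, sum_const, nsmul_eq_mul]
      _ ≤ 4 * X / P * L := by
          gcongr
          exact min_squares hP hX0.le
  -- the main term
  set W := Real.sqrt (1 / q + 1 / P + (Q + q) * Real.log (2 * q) / L) with hW
  obtain ⟨I, hI1, hI2⟩ : ∃ I : ℕ, Q ≤ P * 2 ^ I ∧ ∀ i < I, P * 2 ^ i < Q := by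
    have hex : ∃ I : ℕ, Q ≤ P * 2 ^ I := by
      obtain ⟨I, hI⟩ := pow_unbounded_of_one_lt (Q / P) (by norm_num : (1 : ℝ) < 2)
      refine ⟨I, ?_⟩
      rw [div_lt_iff₀ hP0] at hI
      linarith
    refine ⟨Nat.find hex, Nat.find_spec hex, fun i hi => ?_⟩
    have := Nat.find_min hex hi
    push Not at this
    exact this
  have hlogQ : 0 ≤ Real.log Q := Real.log_nonneg (by linarith)
  have hIlog : (I : ℝ) ≤ 2 * Real.log Q := by
    rcases I with _ | j
    · simpa using hlogQ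
    · have h1 := hI2 j (Nat.lt_succ_self j)
      have h2 : Real.log (P * 2 ^ j) ≤ Real.log Q := Real.log_le_log (by positivity) h1.le
      rw [Real.log_mul hP0.ne' (by positivity), Real.log_pow] at h2
      have h3 : Real.log 2 ≤ Real.log P := Real.log_le_log (by norm_num) hP
      have h4 := Real.log_two_gt_d9
      push_cast
      have h5 : ((j : ℝ) + 1) * Real.log 2 ≤ Real.log Q := by linarith
      have h6 : (0 : ℝ) ≤ j := Nat.cast_nonneg j
      nlinarith
  have hmain : ‖∑ p ∈ PrI P Q, f p * ∑ n ∈ (range N).filter (fun n : ℕ => X < n ∧ p ∣ n),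
      bco P Q f s (n / p) * ee (n * θ) * min_Th N L θ ph n‖ ≤ I * (Real.sqrt C1 * (X * L) * W) := by
    let G : ℕ → ℂ := fun p => f p * ∑ n ∈ (range N).filter (fun n : ℕ => X < n ∧ p ∣ n),
      bco P Q f s (n / p) * ee (n * θ) * min_Th N L θ ph n
    have h1 : ∑ p ∈ PrI P Q, G p = ∑ p ∈ (PrI P Q).filter (fun p : ℕ => (p : ℝ) ≤ P * 2 ^ I), G p := by
      rw [filter_true_of_mem]
      intro p hp
      exact ((min_mem_PrI hP0.le).1 hp).2.2.trans hI1
    change ‖∑ p ∈ PrI P Q, G p‖ ≤ _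
    rw [h1, min_dyadic (PrI P Q) (fun p hp => ((min_mem_PrI hP0.le).1 hp).2.1) G I]
    refine (norm_sum_le _ _).trans ?_
    have h2 : ∀ i ∈ range I, ‖∑ p ∈ (PrI P Q).filter
        (fun p : ℕ => P * 2 ^ i < p ∧ (p : ℝ) ≤ P * 2 ^ (i + 1)), G p‖
        ≤ Real.sqrt C1 * (X * L) * W := by
      intro i hi
      rw [mem_range] at hi
      set R := P * 2 ^ i with hR
      have hPR : P ≤ R := by
        rw [hR]
        have : (1 : ℝ) ≤ 2 ^ i := one_le_pow₀ (by norm_num)
        nlinarith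
      have hRQ : R < Q := hI2 i hi
      have hR0 : 0 < R := by linarith
      have hRe : P * 2 ^ (i + 1) = 2 * R := by rw [hR]; ring
      rw [hRe]
      have h3 := hcl X R θ L q a ((PrI P Q).filter (fun p : ℕ => R < p ∧ (p : ℝ) ≤ 2 * R))
        f (bco P Q f s) ph (by linarith) (by linarith) hLX
        (fun p hp => (mem_filter.1 hp).2) hf.2.2 ?_ hph hq hcop happ
      · have h4 : ∑ p ∈ (PrI P Q).filter (fun p : ℕ => R < p ∧ (p : ℝ) ≤ 2 * R), G p
            = ∑ p ∈ (PrI P Q).filter (fun p : ℕ => R < p ∧ (p : ℝ) ≤ 2 * R), f p *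
              ∑ k ∈ (Icc 1 ⌊2 * X / R⌋₊).filter
              (fun k => X < ((p * k : ℕ) : ℝ) ∧ ((p * k : ℕ) : ℝ) ≤ 2 * X),
              bco P Q f s k * ee (((p * k : ℕ) : ℝ) * θ) * min_Th N L θ ph (p * k) := by
          refine sum_congr rfl fun p hp => ?_
          simp only [G]
          congr 1
          exact min_reindex hX0 hR0 (mem_filter.1 hp).2.1
            (fun k n => bco P Q f s k * ee (n * θ) * min_Th N L θ ph n)
        rw [h4]
        have h5 : 1 / (q : ℝ) + 1 / R + (R + q) * Real.log (2 * q) / L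
            ≤ 1 / q + 1 / P + (Q + q) * Real.log (2 * q) / L := by
          gcongr
        have h6 : 0 ≤ 1 / (q : ℝ) + 1 / P + (Q + q) * Real.log (2 * q) / L := by positivity
        have h7 : (Real.sqrt C1 * (X * L) * W) ^ 2
            = C1 * (X * L) ^ 2 * (1 / q + 1 / P + (Q + q) * Real.log (2 * q) / L) := by
          rw [mul_pow, mul_pow, Real.sq_sqrt hC1.le, hW, Real.sq_sqrt h6]
        have h8 : 0 ≤ Real.sqrt C1 * (X * L) * W := by positivity
        refine abs_le_of_sq_le_sq' (a := ‖_‖) (b := Real.sqrt C1 * (X * L) * W) ?_ h8 |>.2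
        rw [h7]
        refine h3.trans ?_
        gcongr
      · intro n
        unfold bco
        split_ifs
        · rw [norm_div]
          have h9 : ((Om P Q n : ℂ) + 1) = (((Om P Q n : ℝ) + 1 : ℝ) : ℂ) := by push_cast; rfl
          rw [h9, Complex.norm_real, Real.norm_eq_abs, abs_of_nonneg (by positivity)]
          apply div_le_one_of_le₀ _ (by positivity)
          have := hf.2.2 n
          have h10 : (0 : ℝ) ≤ Om P Q n := Nat.cast_nonneg _
          linarith
        · simp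
    refine (sum_le_sum h2).trans ?_
    rw [sum_const, card_range, nsmul_eq_mul]
  calc _ ≤ I * (Real.sqrt C1 * (X * L) * W) + 4 * X / P * L :=
        (norm_add_le _ _).trans (add_le_add hmain herr)
    _ ≤ 2 * Real.log Q * (Real.sqrt C1 * (X * L) * W) + 4 * X / P * L := by gcongr
    _ ≤ (2 * Real.sqrt C1 + 4) * X * L * (Real.log Q * W + 1 / P) := by
        have hW0 : 0 ≤ W := Real.sqrt_nonneg _
        have e1 : (2 * Real.sqrt C1 + 4) * X * L * (Real.log Q * W + 1 / P)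
          = 2 * Real.log Q * (Real.sqrt C1 * (X * L) * W) + 4 * X / P * L
            + (4 * X * L * (Real.log Q * W) + 2 * Real.sqrt C1 * X * L * (1 / P)) := by ring
        rw [e1]
        have : 0 ≤ 4 * X * L * (Real.log Q * W) + 2 * Real.sqrt C1 * X * L * (1 / P) := by
          positivity
        linarith

end Pool.Agent.Helper40.MR
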