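import Pool.Agent.Helper40.MR.Defs

/-!
# Minor arcs, part 1: geometric sums over intervals and the window kernel
-/

set_option autoImplicit false

open Finset MeasureTheory
open scoped BigOperators Nat ComplexConjugate

namespace Pool.Agent.Helper40.MR

/-! ### exponentials -/

theorem min_ee_add (x y : ℝ) : ee (x + y) = ee x * ee y := by
  unfold ee
  rw [← Complex.exp_add]
  congr 1
  push_cast
  ring

theorem min_norm_ee (x : ℝ) : ‖ee x‖ = 1 := by
  unfold ee
  exact Complex.norm_exp_ofReal_mul_I _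

theorem min_conj_ee (x : ℝ) : conj (ee x) = ee (-x) := by
  unfold ee
  rw [← Complex.exp_conj]
  congr 1
  rw [map_mul, Complex.conj_ofReal, Complex.conj_I]
  push_cast
  ring

theorem min_ee_sub_one (x : ℝ) : 4 * |x - round x| ≤ ‖ee x - 1‖ := by
  have h1 : ‖ee x - 1‖ = ‖2 * Real.sin (Real.pi * x)‖ := by
    have := Complex.norm_exp_I_mul_ofReal_sub_one (2 * Real.pi * x)
    unfold ee
    rw [mul_comm ((2 * Real.pi * x : ℝ) : ℂ) Complex.I, this]
    congr 2
    congr 1
    ring
  rw [h1]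
  set b := x - round x with hb
  have h2 : |Real.sin (Real.pi * x)| = |Real.sin (Real.pi * b)| := by
    have : Real.pi * x = Real.pi * b + (round x : ℤ) * Real.pi := by rw [hb]; ring
    rw [this, Real.sin_add_int_mul_pi]
    rw [abs_mul]
    simp
  have h3 : |b| ≤ 1 / 2 := abs_sub_round x
  have h4 := Real.mul_abs_le_abs_sin (x := Real.pi * b) (by
    rw [abs_mul, abs_of_pos Real.pi_pos]
    nlinarith [Real.pi_pos])
  rw [abs_mul, abs_of_pos Real.pi_pos] at h4
  have h5 : 2 / Real.pi * (Real.pi * |b|) = 2 * |b| := by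
    have := Real.pi_ne_zero
    field_simp
  rw [norm_mul, Real.norm_eq_abs, Real.norm_eq_abs, h2, abs_of_pos (by norm_num : (0 : ℝ) < 2)]
  rw [h5] at h4
  linarith

/-- geometric sums -/
theorem min_geom (α : ℝ) (a b : ℕ) :
    ‖∑ k ∈ Icc a b, ee (k * α)‖ * |α - round α| ≤ 1 := by
  rcases lt_or_ge b a with hab | hab
  · rw [Icc_eq_empty (by omega)]
    simp
  have htel : ∀ b, a ≤ b → (∑ k ∈ Icc a b, ee (k * α)) * (ee α - 1)
      = ee ((b + 1 : ℕ) * α) - ee (a * α) := by
    intro b hb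
    induction b, hb using Nat.le_induction with
    | base =>
      rw [Icc_self, sum_singleton, mul_sub, mul_one, ← min_ee_add]
      congr 2
      push_cast
      ring
    | succ b hb ih =>
      have : Icc a (b + 1) = insert (b + 1) (Icc a b) := by
        ext x
        simp only [mem_Icc, mem_insert]
        omega
      rw [this, sum_insert (by simp), add_mul, ih, mul_sub, mul_one, ← min_ee_add]
      have e : ((b + 1 : ℕ) : ℝ) * α + α = ((b + 1 + 1 : ℕ) : ℝ) * α := by
        push_cast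
        ring
      rw [e]
      ring
  have h1 := congrArg norm (htel b hab)
  rw [norm_mul] at h1
  have h2 : ‖ee ((b + 1 : ℕ) * α) - ee (a * α)‖ ≤ 2 := by
    refine (norm_sub_le _ _).trans ?_
    rw [min_norm_ee, min_norm_ee]
    norm_num
  have h3 := min_ee_sub_one α
  have h4 : ‖∑ k ∈ Icc a b, ee (k * α)‖ * (4 * |α - round α|)
      ≤ ‖∑ k ∈ Icc a b, ee (k * α)‖ * ‖ee α - 1‖ := by gcongr
  rw [h1] at h4
  linarith

/-- counting natural numbers in a short interval -/
theorem min_card {S : Finset ℕ} {w : ℝ} (hw : 0 ≤ w) (h : ∀ x ∈ S, ∀ y ∈ S, (x : ℝ) - y ≤ w) :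
    (S.card : ℝ) ≤ w + 1 := by
  rcases S.eq_empty_or_nonempty with rfl | hne
  · simp; linarith
  have h1 := h _ (S.max'_mem hne) _ (S.min'_mem hne)
  have hsub : S ⊆ Icc (S.min' hne) (S.max' hne) := fun x hx =>
    mem_Icc.2 ⟨S.min'_le x hx, S.le_max' x hx⟩
  have h2 := card_le_card hsub
  rw [Nat.card_Icc] at h2
  have h3 : S.min' hne ≤ S.max' hne := S.min'_le _ (S.max'_mem hne)
  have h4 : (S.card : ℝ) ≤ ((S.max' hne + 1 - S.min' hne : ℕ) : ℝ) := by exact_mod_cast h2
  rw [Nat.cast_sub (by omega)] at h4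
  push_cast at h4
  linarith

theorem min_mn_nonneg {V : ℝ} (hV : 0 ≤ V) (x : ℝ) : 0 ≤ mn V x := by
  unfold mn
  split_ifs
  · exact hV
  · positivity

theorem min_mn_neg (V x : ℝ) : mn V (-x) = mn V x := by
  have h : ∀ y : ℝ, |-y - round (-y)| ≤ |y - round y| := by
    intro y
    refine (round_le (-y) (-round y)).trans ?_
    push_cast
    rw [show -y - -(round y : ℝ) = -(y - round y) by ring, abs_neg]
  have e : |-x - round (-x)| = |x - round x| := by
    refine le_antisymm (h x) ?_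
    have := h (-x)
    rw [neg_neg] at this
    exact this
  unfold mn
  rw [e]

theorem min_mn_zero {V : ℝ} : mn V 0 = V := by
  unfold mn
  simp

/-- sums over convex sets of natural numbers -/
theorem min_conv {S : Finset ℕ} (hS : ∀ x ∈ S, ∀ z ∈ S, ∀ y, x ≤ y → y ≤ z → y ∈ S) {V : ℝ}
    (hV : 0 ≤ V) (hc : (S.card : ℝ) ≤ V) (α : ℝ) : ‖∑ k ∈ S, ee (k * α)‖ ≤ mn V α := by
  rcases S.eq_empty_or_nonempty with rfl | hne
  · rw [sum_empty, norm_zero]
    exact min_mn_nonneg hV α
  have hS' : S = Icc (S.min' hne) (S.max' hne) := by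
    ext x
    rw [mem_Icc]
    constructor
    · intro hx
      exact ⟨S.min'_le x hx, S.le_max' x hx⟩
    · rintro ⟨h1, h2⟩
      exact hS _ (S.min'_mem hne) _ (S.max'_mem hne) x h1 h2
  unfold mn
  split_ifs with h
  · refine (norm_sum_le _ _).trans ?_
    simp only [min_norm_ee, sum_const, nsmul_eq_mul, mul_one]
    exact hc
  · push Not at h
    have hpos : 0 < |α - round α| := by
      by_contra h0
      push Not at h0
      have : |α - round α| = 0 := le_antisymm h0 (abs_nonneg _)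
      rw [this, mul_zero] at h
      linarith
    rw [le_div_iff₀ hpos]
    have := min_geom α (S.min' hne) (S.max' hne)
    rw [← hS'] at this
    exact this

/-! ### the window kernel -/

/-- the kernel `Th` -/
noncomputable def min_Th (N L : ℕ) (θ : ℝ) (ph : ℕ → ℂ) (n : ℕ) : ℂ :=
  ∑ m ∈ (range N).filter (fun m => m ≤ n ∧ n < m + L), ph m * ee (-(m * θ))

theorem min_norm_Th (N L : ℕ) (θ : ℝ) (ph : ℕ → ℂ) (hph : ∀ m, ‖ph m‖ ≤ 1) (n : ℕ) :
    ‖min_Th N L θ ph n‖ ≤ L := by
  unfold min_Th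
  refine (norm_sum_le _ _).trans ?_
  have h1 : ∀ m ∈ (range N).filter (fun m => m ≤ n ∧ n < m + L),
      ‖ph m * ee (-(m * θ))‖ ≤ 1 := fun m _ => by
    rw [norm_mul, min_norm_ee, mul_one]; exact hph m
  refine (sum_le_sum h1).trans ?_
  rw [sum_const, nsmul_eq_mul, mul_one]
  have h2 : (range N).filter (fun m => m ≤ n ∧ n < m + L) ⊆ Ico (n + 1 - L) (n + 1) := by
    intro m hm
    rw [mem_filter] at hm
    rw [mem_Ico]
    omega
  have h3 := card_le_card h2
  rw [Nat.card_Ico] at h3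
  exact_mod_cast h3.trans (by omega)

/-- duality: windows against the kernel -/
theorem min_dual (N L : ℕ) (θ : ℝ) (A : ℕ → ℂ) (hA : ∀ n, N ≤ n → A n = 0) :
    ∃ ph : ℕ → ℂ, (∀ m, ‖ph m‖ ≤ 1) ∧
    ∑ m ∈ range N, ‖∑ j ∈ range L, A (m + j) * ee (j * θ)‖
      ≤ ‖∑ n ∈ range N, A n * ee (n * θ) * min_Th N L θ ph n‖ := by
  classical
  let S : ℕ → ℂ := fun m => ∑ j ∈ range L, A (m + j) * ee (j * θ)
  let ph : ℕ → ℂ := fun m => conj (S m) / (‖S m‖ : ℂ)
  have hph1 : ∀ m, ‖ph m‖ ≤ 1 := by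
    intro m
    simp only [ph]
    rw [norm_div, RCLike.norm_conj, Complex.norm_real, Real.norm_eq_abs, abs_norm]
    exact div_self_le_one _
  have hph2 : ∀ m, ph m * S m = ‖S m‖ := by
    intro m
    simp only [ph]
    by_cases h : ‖S m‖ = 0
    · have h' : S m = 0 := norm_eq_zero.1 h
      rw [h']; simp
    · have h' : (‖S m‖ : ℂ) ≠ 0 := by exact_mod_cast h
      rw [div_mul_eq_mul_div, mul_comm (conj (S m)), Complex.mul_conj', sq, mul_div_assoc,
        div_self h', mul_one]
  refine ⟨ph, hph1, ?_⟩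
  have h1 : ∀ m, ph m * S m = ∑ n ∈ (range N).filter (fun n => m ≤ n ∧ n < m + L),
      A n * ee (n * θ) * (ph m * ee (-(m * θ))) := by
    intro m
    simp only [S]
    rw [mul_sum]
    have e1 : ∑ j ∈ range L, ph m * (A (m + j) * ee (j * θ))
        = ∑ n ∈ Ico m (m + L), A n * ee (n * θ) * (ph m * ee (-(m * θ))) := by
      rw [sum_Ico_eq_sum_range, Nat.add_sub_cancel_left]
      refine sum_congr rfl fun j _ => ?_
      have : ee (j * θ) = ee (((m + j : ℕ) : ℝ) * θ) * ee (-(m * θ)) := by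
        rw [← min_ee_add]
        congr 1
        push_cast
        ring
      rw [this]
      ring
    rw [e1]
    symm
    refine sum_subset (fun n hn => ?_) (fun n hn hn' => ?_)
    · rw [mem_filter] at hn
      exact mem_Ico.2 hn.2
    · rw [mem_Ico] at hn
      rw [mem_filter, mem_range] at hn'
      have : N ≤ n := by
        by_contra h
        exact hn' ⟨by omega, hn⟩
      rw [hA n this]
      ring
  have h2 : ((∑ m ∈ range N, ‖S m‖ : ℝ) : ℂ)
      = ∑ n ∈ range N, A n * ee (n * θ) * min_Th N L θ ph n := by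
    push_cast
    rw [sum_congr rfl fun m _ => ((hph2 m).symm.trans (h1 m))]
    unfold min_Th
    simp only [mul_sum]
    rw [sum_comm' (s' := fun n => (range N).filter (fun m => m ≤ n ∧ n < m + L)) (t' := range N)]
    intro m n
    simp only [mem_filter]
    tauto
  have h3 : ‖((∑ m ∈ range N, ‖S m‖ : ℝ) : ℂ)‖ = ∑ m ∈ range N, ‖S m‖ := by
    rw [Complex.norm_real, Real.norm_eq_abs, abs_of_nonneg (sum_nonneg fun _ _ => norm_nonneg _)]
  rw [← h2, h3]

end Pool.Agent.Helper40.MR
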