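import Pool.Agent.Helper39.MR.MIN1

/-!
# Minor arcs, part 2: the bilinear estimate for one dyadic class
-/

set_option autoImplicit false

open Finset MeasureTheory
open scoped BigOperators Nat ComplexConjugate

namespace Pool.Agent.Helper40.MR

/-- the sum over `k` for a pair of primes -/
theorem min_pair {X R θ : ℝ} {N L M p p' : ℕ} {ph : ℕ → ℂ} (hph : ∀ m, ‖ph m‖ ≤ 1)
    (hR : 0 < R) (hp : R < p) (hp' : R < p') (hp'2 : (p' : ℝ) ≤ 2 * R) (hL : 1 ≤ L) :
    ‖∑ k ∈ (Icc 1 M).filter (fun k => (X < ((p * k : ℕ) : ℝ) ∧ ((p * k : ℕ) : ℝ) ≤ 2 * X) ∧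
        (X < ((p' * k : ℕ) : ℝ) ∧ ((p' * k : ℕ) : ℝ) ≤ 2 * X)),
      ee (k * (((p : ℝ) - p') * θ)) * (min_Th N L θ ph (p * k) * conj (min_Th N L θ ph (p' * k)))‖
    ≤ N * (3 * L + 1) * mn (L / R + 1) (((p : ℝ) - p') * θ) := by
  classical
  set K0 := (Icc 1 M).filter (fun k => (X < ((p * k : ℕ) : ℝ) ∧ ((p * k : ℕ) : ℝ) ≤ 2 * X) ∧
        (X < ((p' * k : ℕ) : ℝ) ∧ ((p' * k : ℕ) : ℝ) ≤ 2 * X)) with hK0
  set α := ((p : ℝ) - p') * θ with hα
  set V : ℝ := L / R + 1 with hV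
  have hp0 : (0 : ℝ) < p := hR.trans hp
  have hp'0 : (0 : ℝ) < p' := hR.trans hp'
  have hp0' : 0 < p := by exact_mod_cast hp0
  have hp'0' : 0 < p' := by exact_mod_cast hp'0
  have hV0 : 0 ≤ V := by positivity
  let a : ℕ → ℂ := fun m => ph m * ee (-(m * θ))
  have ha : ∀ m, ‖a m‖ ≤ 1 := fun m => by
    change ‖ph m * ee (-(m * θ))‖ ≤ 1
    rw [norm_mul, min_norm_ee, mul_one]; exact hph m
  let Km : ℕ → ℕ → Finset ℕ := fun m m' => K0.filter
    (fun k => (m ≤ p * k ∧ p * k < m + L) ∧ (m' ≤ p' * k ∧ p' * k < m' + L))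
  -- expansion
  have hexp : ∑ k ∈ K0, ee (k * α) * (min_Th N L θ ph (p * k) * conj (min_Th N L θ ph (p' * k)))
      = ∑ m ∈ range N, ∑ m' ∈ range N, a m * conj (a m') * ∑ k ∈ Km m m', ee (k * α) := by
    have e1 : ∀ k, min_Th N L θ ph (p * k) * conj (min_Th N L θ ph (p' * k))
        = ∑ m ∈ range N, ∑ m' ∈ range N,
          if ((m ≤ p * k ∧ p * k < m + L) ∧ (m' ≤ p' * k ∧ p' * k < m' + L))
          then a m * conj (a m') else 0 := by
      intro k
      unfold min_Th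
      rw [map_sum, sum_mul_sum, sum_filter]
      refine sum_congr rfl fun m _ => ?_
      by_cases h : m ≤ p * k ∧ p * k < m + L
      · rw [if_pos h, sum_filter]
        refine sum_congr rfl fun m' _ => ?_
        by_cases h' : m' ≤ p' * k ∧ p' * k < m' + L
        · rw [if_pos h', if_pos ⟨h, h'⟩]
        · rw [if_neg h', if_neg fun hh => h' hh.2]
      · rw [if_neg h]
        symm
        refine sum_eq_zero fun m' _ => ?_
        rw [if_neg fun hh => h hh.1]
    have e2 : ∀ k : ℕ, ee (k * α) *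
        (min_Th N L θ ph (p * k) * conj (min_Th N L θ ph (p' * k)))
        = ∑ m ∈ range N, ∑ m' ∈ range N,
          if ((m ≤ p * k ∧ p * k < m + L) ∧ (m' ≤ p' * k ∧ p' * k < m' + L))
          then a m * conj (a m') * ee (k * α) else 0 := by
      intro k
      rw [e1 k, mul_sum]
      refine sum_congr rfl fun m _ => ?_
      rw [mul_sum]
      refine sum_congr rfl fun m' _ => ?_
      split_ifs
      · ring
      · ring
    rw [sum_congr rfl fun k _ => e2 k, sum_comm]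
    refine sum_congr rfl fun m _ => ?_
    rw [sum_comm]
    refine sum_congr rfl fun m' _ => ?_
    rw [mul_sum]
    exact (sum_filter _ _).symm
  rw [hexp]
  -- bound for a pair
  have hpair : ∀ m m', ‖a m * conj (a m') * ∑ k ∈ Km m m', ee (k * α)‖
      ≤ if (Km m m').Nonempty then mn V α else 0 := by
    intro m m'
    split_ifs with hne
    · have h1 : ‖∑ k ∈ Km m m', ee (k * α)‖ ≤ mn V α := by
        refine min_conv ?_ hV0 ?_ α
        · intro x hx z hz y hxy hyz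
          simp only [Km, hK0, mem_filter, mem_Icc] at hx hz ⊢
          have i1 : p * x ≤ p * y := Nat.mul_le_mul_left p hxy
          have i2 : p * y ≤ p * z := Nat.mul_le_mul_left p hyz
          have i3 : p' * x ≤ p' * y := Nat.mul_le_mul_left p' hxy
          have i4 : p' * y ≤ p' * z := Nat.mul_le_mul_left p' hyz
          have j1 : ((p * x : ℕ) : ℝ) ≤ ((p * y : ℕ) : ℝ) := by exact_mod_cast i1
          have j2 : ((p * y : ℕ) : ℝ) ≤ ((p * z : ℕ) : ℝ) := by exact_mod_cast i2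
          have j3 : ((p' * x : ℕ) : ℝ) ≤ ((p' * y : ℕ) : ℝ) := by exact_mod_cast i3
          have j4 : ((p' * y : ℕ) : ℝ) ≤ ((p' * z : ℕ) : ℝ) := by exact_mod_cast i4
          obtain ⟨⟨⟨x1, x2⟩, ⟨x3, x4⟩, x5, x6⟩, ⟨x7, x8⟩, x9, x10⟩ := hx
          obtain ⟨⟨⟨z1, z2⟩, ⟨z3, z4⟩, z5, z6⟩, ⟨z7, z8⟩, z9, z10⟩ := hz
          exact ⟨⟨⟨by omega, by omega⟩, ⟨by linarith, by linarith⟩, by linarith, by linarith⟩,
            ⟨by omega, by omega⟩, by omega, by omega⟩
        · refine min_card (by positivity) fun x hx y hy => ?_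
          simp only [Km, mem_filter] at hx hy
          have h2 : p * x < p * y + L := by
            have := hx.2.1.2
            have := hy.2.1.1
            omega
          have h3 : (p : ℝ) * x < p * y + L := by exact_mod_cast h2
          have h4 : (p : ℝ) * (x - y) < L := by nlinarith
          rw [le_div_iff₀ hR]
          rcases le_or_gt ((x : ℝ) - y) 0 with h5 | h5
          · have h6 : ((x : ℝ) - y) * R ≤ 0 := by nlinarith
            have h7 : (0 : ℝ) ≤ L := by positivity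
            linarith
          · have h6 : ((x : ℝ) - y) * R ≤ (x - y) * p := by nlinarith
            linarith
      calc ‖a m * conj (a m') * ∑ k ∈ Km m m', ee (k * α)‖
          = ‖a m‖ * ‖a m'‖ * ‖∑ k ∈ Km m m', ee (k * α)‖ := by
            rw [norm_mul, norm_mul, RCLike.norm_conj]
        _ ≤ 1 * 1 * mn V α := by
            gcongr
            · exact ha m
            · exact ha m'
        _ = mn V α := by ring
    · rw [not_nonempty_iff_eq_empty] at hne
      rw [hne]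
      simp
  have hmn : 0 ≤ mn V α := min_mn_nonneg hV0 α
  calc ‖∑ m ∈ range N, ∑ m' ∈ range N, a m * conj (a m') * ∑ k ∈ Km m m', ee (k * α)‖
      ≤ ∑ m ∈ range N, ∑ m' ∈ range N, ‖a m * conj (a m') * ∑ k ∈ Km m m', ee (k * α)‖ :=
        (norm_sum_le _ _).trans (sum_le_sum fun m _ => norm_sum_le _ _)
    _ ≤ ∑ m ∈ range N, ∑ m' ∈ range N, (if (Km m m').Nonempty then mn V α else 0) :=
        sum_le_sum fun m _ => sum_le_sum fun m' _ => hpair m m'
    _ = ∑ m ∈ range N, (((range N).filter fun m' => (Km m m').Nonempty).card : ℝ) * mn V α := by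
        refine sum_congr rfl fun m _ => ?_
        rw [← sum_filter, sum_const, nsmul_eq_mul]
    _ ≤ ∑ m ∈ range N, (3 * L + 1) * mn V α := by
        refine sum_le_sum fun m _ => ?_
        refine mul_le_mul_of_nonneg_right ?_ hmn
        refine min_card (by positivity) fun x hx y hy => ?_
        rw [mem_filter] at hx hy
        obtain ⟨_, k1, hk1⟩ := hx
        obtain ⟨_, k2, hk2⟩ := hy
        simp only [Km, mem_filter] at hk1 hk2
        have h1 : (x : ℝ) ≤ p' * k1 := by exact_mod_cast hk1.2.2.1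
        have h2 : (p' : ℝ) * k2 ≤ y + L := by exact_mod_cast hk2.2.2.2.le
        have h3 : (p : ℝ) * k1 ≤ m + L := by exact_mod_cast hk1.2.1.2.le
        have h4 : (m : ℝ) ≤ p * k2 := by exact_mod_cast hk2.2.1.1
        have h5 : (p : ℝ) * (k1 - k2) ≤ L := by linarith
        have h6 : (p' : ℝ) * (k1 - k2) ≤ 2 * L := by
          rcases le_or_gt ((k1 : ℝ) - k2) 0 with h7 | h7
          · have h8 : (p' : ℝ) * (k1 - k2) ≤ 0 := by nlinarith
            have h9 : (0 : ℝ) ≤ L := by positivity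
            linarith
          · have h8 : (p' : ℝ) * (k1 - k2) ≤ 2 * p * (k1 - k2) := by
              apply mul_le_mul_of_nonneg_right _ h7.le
              linarith
            linarith
        linarith
    _ = N * (3 * L + 1) * mn V α := by
        rw [sum_const, card_range, nsmul_eq_mul]
        ring

/-- sums of a nonnegative function along an injection -/
theorem min_inj {S T : Finset ℕ} (g : ℕ → ℕ) (F : ℕ → ℝ) (hg : ∀ x ∈ S, g x ∈ T)
    (hinj : ∀ x ∈ S, ∀ y ∈ S, g x = g y → x = y) (hF : ∀ d ∈ T, 0 ≤ F d) :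
    ∑ x ∈ S, F (g x) ≤ ∑ d ∈ T, F d := by
  classical
  rw [← sum_image (f := F) (s := S) (g := g) hinj]
  refine sum_le_sum_of_subset_of_nonneg ?_ fun d hd _ => hF d hd
  intro d hd
  rw [mem_image] at hd
  obtain ⟨x, hx, rfl⟩ := hd
  exact hg x hx

theorem min_sumD {R V θ : ℝ} {D : Finset ℕ} (hV : 0 ≤ V)
    (hD : ∀ p ∈ D, R < p ∧ (p : ℝ) ≤ 2 * R) {p : ℕ} (hp : p ∈ D) :
    ∑ p' ∈ D, mn V (((p : ℝ) - p') * θ) ≤ V + 2 * ∑ d ∈ Icc 1 ⌊R⌋₊, mn V (d * θ) := by
  classical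
  have hnn : ∀ d ∈ Icc 1 ⌊R⌋₊, 0 ≤ mn V ((d : ℕ) * θ) := fun d _ => min_mn_nonneg hV _
  have h1 : ∑ p' ∈ D.filter (fun p' => p' < p), mn V (((p : ℝ) - p') * θ)
      ≤ ∑ d ∈ Icc 1 ⌊R⌋₊, mn V (d * θ) := by
    have := min_inj (S := D.filter (fun p' => p' < p)) (T := Icc 1 ⌊R⌋₊) (fun p' => p - p')
      (fun d => mn V (d * θ)) ?_ ?_ hnn
    · refine le_trans (le_of_eq ?_) this
      refine sum_congr rfl fun p' hp' => ?_
      rw [mem_filter] at hp'
      rw [Nat.cast_sub hp'.2.le]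
    · intro x hx
      rw [mem_filter] at hx
      rw [mem_Icc]
      refine ⟨by omega, ?_⟩
      apply Nat.le_floor
      rw [Nat.cast_sub hx.2.le]
      linarith [(hD p hp).2, (hD x hx.1).1]
    · intro x hx y hy hxy
      rw [mem_filter] at hx hy
      omega
  have h2 : ∑ p' ∈ D.filter (fun p' => p < p'), mn V (((p : ℝ) - p') * θ)
      ≤ ∑ d ∈ Icc 1 ⌊R⌋₊, mn V (d * θ) := by
    have := min_inj (S := D.filter (fun p' => p < p')) (T := Icc 1 ⌊R⌋₊) (fun p' => p' - p)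
      (fun d => mn V (d * θ)) ?_ ?_ hnn
    · refine le_trans (le_of_eq ?_) this
      refine sum_congr rfl fun p' hp' => ?_
      rw [mem_filter] at hp'
      rw [Nat.cast_sub hp'.2.le, ← min_mn_neg]
      congr 1
      ring
    · intro x hx
      rw [mem_filter] at hx
      rw [mem_Icc]
      refine ⟨by omega, ?_⟩
      apply Nat.le_floor
      rw [Nat.cast_sub hx.2.le]
      linarith [(hD p hp).1, (hD x hx.1).2]
    · intro x hx y hy hxy
      rw [mem_filter] at hx hy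
      omega
  have h3 : ∑ p' ∈ D, mn V (((p : ℝ) - p') * θ)
      = mn V (((p : ℝ) - p) * θ) + ∑ p' ∈ D.filter (fun p' => p' < p), mn V (((p : ℝ) - p') * θ)
        + ∑ p' ∈ D.filter (fun p' => p < p'), mn V (((p : ℝ) - p') * θ) := by
    rw [← add_sum_erase D _ hp]
    have e1 : D.filter (fun p' => p' < p) = (D.erase p).filter (fun p' => p' < p) := by
      ext x
      simp only [mem_filter, mem_erase]
      constructor
      · rintro ⟨h1, h2⟩; exact ⟨⟨by omega, h1⟩, h2⟩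
      · rintro ⟨⟨_, h1⟩, h2⟩; exact ⟨h1, h2⟩
    have e2 : D.filter (fun p' => p < p') = (D.erase p).filter (fun p' => ¬ p' < p) := by
      ext x
      simp only [mem_filter, mem_erase]
      constructor
      · rintro ⟨h1, h2⟩; exact ⟨⟨by omega, h1⟩, by omega⟩
      · rintro ⟨⟨h0, h1⟩, h2⟩; exact ⟨h1, by omega⟩
    rw [e1, e2, add_assoc, sum_filter_add_sum_filter_not]
  rw [h3, sub_self, zero_mul, min_mn_zero]
  linarith

/-- the estimate for one dyadic class -/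
theorem min_class (hK : ST_KER) : ∃ C : ℝ, 0 < C ∧ ∀ (X R θ : ℝ) (L q : ℕ) (a : ℤ) (D : Finset ℕ)
    (f b ph : ℕ → ℂ), 2 ≤ R → R ≤ L → (L : ℝ) ≤ X → (∀ p ∈ D, R < p ∧ (p : ℝ) ≤ 2 * R) →
    (∀ n, ‖f n‖ ≤ 1) → (∀ n, ‖b n‖ ≤ 1) → (∀ n, ‖ph n‖ ≤ 1) → 1 ≤ q → IsCoprime a (q : ℤ) →
    |θ - a / q| ≤ 1 / (q : ℝ) ^ 2 →
    ‖∑ p ∈ D, f p * ∑ k ∈ (Icc 1 ⌊2 * X / R⌋₊).filter
        (fun k => X < ((p * k : ℕ) : ℝ) ∧ ((p * k : ℕ) : ℝ) ≤ 2 * X),
        b k * ee (((p * k : ℕ) : ℝ) * θ) * min_Th (⌊2 * X⌋₊ + 1) L θ ph (p * k)‖ ^ 2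
      ≤ C * (X * L) ^ 2 * (1 / q + 1 / R + (R + q) * Real.log (2 * q) / L) := by
  classical
  obtain ⟨C0, hC0, hK⟩ := hK
  refine ⟨96 * (1 + 2 * C0), by positivity, ?_⟩
  intro X R θ L q a D f b ph hR2 hRL hLX hD hf hb hph hq hcop happ
  set N := ⌊2 * X⌋₊ + 1 with hN
  set M := ⌊2 * X / R⌋₊ with hM
  have hR0 : 0 < R := by linarith
  have hL0 : (0 : ℝ) < L := by linarith
  have hL1 : 1 ≤ L := by exact_mod_cast (by linarith : (1 : ℝ) ≤ L)
  have hX0 : 0 < X := by linarith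
  have hq0 : (0 : ℝ) < q := by exact_mod_cast hq
  have hq1 : (1 : ℝ) ≤ q := by exact_mod_cast hq
  have hlog : 0 ≤ Real.log (2 * q) := Real.log_nonneg (by linarith)
  set V : ℝ := L / R + 1 with hV
  have hV1 : 1 ≤ V := by rw [hV]; have : 0 ≤ (L : ℝ) / R := by positivity
                         linarith
  let c : ℕ → ℕ → ℂ := fun p k => if X < ((p * k : ℕ) : ℝ) ∧ ((p * k : ℕ) : ℝ) ≤ 2 * X then
    f p * (ee (((p * k : ℕ) : ℝ) * θ) * min_Th N L θ ph (p * k)) else 0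
  -- exchange of sums
  have e1 : ∑ p ∈ D, f p * ∑ k ∈ (Icc 1 M).filter
        (fun k => X < ((p * k : ℕ) : ℝ) ∧ ((p * k : ℕ) : ℝ) ≤ 2 * X),
        b k * ee (((p * k : ℕ) : ℝ) * θ) * min_Th N L θ ph (p * k)
      = ∑ k ∈ Icc 1 M, b k * ∑ p ∈ D, c p k := by
    simp only [mul_sum, sum_filter]
    rw [sum_comm]
    refine sum_congr rfl fun k _ => sum_congr rfl fun p _ => ?_
    simp only [c]
    split_ifs
    · ring
    · ring
  rw [e1]
  have h1 : ‖∑ k ∈ Icc 1 M, b k * ∑ p ∈ D, c p k‖ ≤ ∑ k ∈ Icc 1 M, ‖∑ p ∈ D, c p k‖ := by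
    refine (norm_sum_le _ _).trans (sum_le_sum fun k _ => ?_)
    rw [norm_mul]
    calc ‖b k‖ * ‖∑ p ∈ D, c p k‖ ≤ 1 * ‖∑ p ∈ D, c p k‖ := by gcongr; exact hb k
      _ = _ := one_mul _
  have h2 : ‖∑ k ∈ Icc 1 M, b k * ∑ p ∈ D, c p k‖ ^ 2
      ≤ M * ∑ k ∈ Icc 1 M, ‖∑ p ∈ D, c p k‖ ^ 2 := by
    refine (pow_le_pow_left₀ (norm_nonneg _) h1 2).trans ?_
    have := sq_sum_le_card_mul_sum_sq (s := Icc 1 M) (f := fun k => ‖∑ p ∈ D, c p k‖)
    rw [Nat.card_Icc, Nat.add_sub_cancel] at this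
    exact this
  -- the pairs
  have h3 : ∑ k ∈ Icc 1 M, ‖∑ p ∈ D, c p k‖ ^ 2
      ≤ ∑ p ∈ D, ∑ p' ∈ D, ‖∑ k ∈ Icc 1 M, c p k * conj (c p' k)‖ := by
    have e2 : ((∑ k ∈ Icc 1 M, ‖∑ p ∈ D, c p k‖ ^ 2 : ℝ) : ℂ)
        = ∑ p ∈ D, ∑ p' ∈ D, ∑ k ∈ Icc 1 M, c p k * conj (c p' k) := by
      push_cast
      rw [sum_congr rfl fun p _ => sum_comm (s := D) (t := Icc 1 M), sum_comm]
      refine sum_congr rfl fun k _ => ?_
      rw [← Complex.mul_conj', map_sum, sum_mul_sum]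
    have e3 : ‖((∑ k ∈ Icc 1 M, ‖∑ p ∈ D, c p k‖ ^ 2 : ℝ) : ℂ)‖
        = ∑ k ∈ Icc 1 M, ‖∑ p ∈ D, c p k‖ ^ 2 := by
      rw [Complex.norm_real, Real.norm_eq_abs, abs_of_nonneg (sum_nonneg fun _ _ => by positivity)]
    rw [← e3, e2]
    exact (norm_sum_le _ _).trans (sum_le_sum fun p _ => norm_sum_le _ _)
  have h4 : ∀ p ∈ D, ∀ p' ∈ D, ‖∑ k ∈ Icc 1 M, c p k * conj (c p' k)‖
      ≤ N * (3 * L + 1) * mn V (((p : ℝ) - p') * θ) := by
    intro p hp p' hp'
    have e4 : ∑ k ∈ Icc 1 M, c p k * conj (c p' k) = f p * conj (f p') *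
        ∑ k ∈ (Icc 1 M).filter (fun k => (X < ((p * k : ℕ) : ℝ) ∧ ((p * k : ℕ) : ℝ) ≤ 2 * X) ∧
        (X < ((p' * k : ℕ) : ℝ) ∧ ((p' * k : ℕ) : ℝ) ≤ 2 * X)),
        ee (k * (((p : ℝ) - p') * θ)) *
          (min_Th N L θ ph (p * k) * conj (min_Th N L θ ph (p' * k))) := by
      rw [mul_sum, sum_filter]
      refine sum_congr rfl fun k _ => ?_
      simp only [c]
      by_cases g1 : X < ((p * k : ℕ) : ℝ) ∧ ((p * k : ℕ) : ℝ) ≤ 2 * X
      · by_cases g2 : X < ((p' * k : ℕ) : ℝ) ∧ ((p' * k : ℕ) : ℝ) ≤ 2 * X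
        · rw [if_pos g1, if_pos g2, if_pos ⟨g1, g2⟩]
          have e5 : ee ((k : ℝ) * (((p : ℝ) - p') * θ))
              = ee (((p * k : ℕ) : ℝ) * θ) * conj (ee (((p' * k : ℕ) : ℝ) * θ)) := by
            rw [min_conj_ee, ← min_ee_add]
            congr 1
            push_cast
            ring
          rw [e5]
          simp only [map_mul]
          ring
        · rw [if_neg g2, map_zero, mul_zero]
          exact (if_neg fun hh => g2 hh.2).symm
      · rw [if_neg g1, zero_mul]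
        exact (if_neg fun hh => g1 hh.1).symm
    rw [e4, norm_mul, norm_mul, RCLike.norm_conj]
    have h5 := min_pair (X := X) (R := R) (θ := θ) (N := N) (L := L) (M := M) (p := p) (p' := p')
      (ph := ph) hph hR0 (hD p hp).1 (hD p' hp').1 (hD p' hp').2 hL1
    calc _ ≤ 1 * 1 * (N * (3 * L + 1) * mn V (((p : ℝ) - p') * θ)) := by
          gcongr
          · exact hf p
          · exact hf p'
      _ = _ := by ring
  -- the sums over the differences
  set KS := ∑ d ∈ Icc 1 ⌊R⌋₊, mn V (d * θ) with hKS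
  have hKS0 : 0 ≤ KS := sum_nonneg fun d _ => min_mn_nonneg (by linarith) _
  have hKS1 : KS ≤ C0 * (R / q + 1) * (V + q * Real.log (2 * q)) := by
    have hfl : 1 ≤ ⌊R⌋₊ := Nat.le_floor (by push_cast; linarith)
    refine (hK θ V a q ⌊R⌋₊ hq hfl hV1 hcop happ).trans ?_
    gcongr
    exact Nat.floor_le hR0.le
  have hcard : (D.card : ℝ) ≤ 2 * R := by
    have := min_card (S := D) (w := R) hR0.le fun x hx y hy => by
      linarith [(hD x hx).2, (hD y hy).1]
    linarith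
  have hNX : (N : ℝ) ≤ 3 * X := by
    rw [hN]
    push_cast
    have := Nat.floor_le (by linarith : 0 ≤ 2 * X)
    linarith
  have hL4 : (3 * L + 1 : ℝ) ≤ 4 * L := by
    have : (1 : ℝ) ≤ L := by exact_mod_cast hL1
    linarith
  have hM1 : (M : ℝ) ≤ 2 * X / R := Nat.floor_le (by positivity)
  have h6 : ∑ p ∈ D, ∑ p' ∈ D, ‖∑ k ∈ Icc 1 M, c p k * conj (c p' k)‖
      ≤ 2 * R * (3 * X * (4 * L) * (V + 2 * KS)) := by
    calc _ ≤ ∑ p ∈ D, ∑ p' ∈ D, N * (3 * L + 1) * mn V (((p : ℝ) - p') * θ) :=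
          sum_le_sum fun p hp => sum_le_sum fun p' hp' => h4 p hp p' hp'
      _ = ∑ p ∈ D, N * (3 * L + 1) * ∑ p' ∈ D, mn V (((p : ℝ) - p') * θ) := by
          simp only [mul_sum]
      _ ≤ ∑ p ∈ D, 3 * X * (4 * L) * (V + 2 * KS) := by
          refine sum_le_sum fun p hp => ?_
          have h7 := min_sumD (θ := θ) (by linarith : 0 ≤ V) hD hp
          have h8 : 0 ≤ ∑ p' ∈ D, mn V (((p : ℝ) - p') * θ) :=
            sum_nonneg fun _ _ => min_mn_nonneg (by linarith) _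
          gcongr
      _ = D.card * (3 * X * (4 * L) * (V + 2 * KS)) := by rw [sum_const, nsmul_eq_mul]
      _ ≤ _ := by gcongr
  have hVb : V ≤ 2 * L / R := by
    rw [hV]
    have : 1 ≤ (L : ℝ) / R := by rw [le_div_iff₀ hR0]; linarith
    have e : 2 * (L : ℝ) / R = L / R + L / R := by ring
    rw [e]; linarith
  have hmain : V + 2 * KS ≤ (1 + 2 * C0) * (2 * L * (1 / q + 1 / R + (R + q) * Real.log (2 * q) / L)) := by
    have g1 : V ≤ (R / q + 1) * (V + q * Real.log (2 * q)) := by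
      have : 0 ≤ R / q := by positivity
      have h9 : 0 ≤ (q : ℝ) * Real.log (2 * q) := by positivity
      nlinarith
    have g2 : (R / q + 1) * (V + q * Real.log (2 * q))
        ≤ (R / q + 1) * (2 * L / R + q * Real.log (2 * q)) := by gcongr
    have g3 : (R / q + 1) * (2 * L / R + q * Real.log (2 * q))
        = 2 * L * (1 / q + 1 / R) + (R + q) * Real.log (2 * q) := by
      field_simp
    have g4 : 2 * L * (1 / q + 1 / R + (R + q) * Real.log (2 * q) / L)
        = 2 * L * (1 / q + 1 / R) + 2 * ((R + q) * Real.log (2 * q)) := by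
      field_simp
    have g5 : 0 ≤ (R + q) * Real.log (2 * q) := by positivity
    rw [g4]
    have g6 : (R / q + 1) * (V + q * Real.log (2 * q))
        ≤ 2 * L * (1 / q + 1 / R) + 2 * ((R + q) * Real.log (2 * q)) := by linarith
    have g7 : V + 2 * KS ≤ (1 + 2 * C0) * ((R / q + 1) * (V + q * Real.log (2 * q))) := by
      have : C0 * (R / q + 1) * (V + q * Real.log (2 * q))
        = C0 * ((R / q + 1) * (V + q * Real.log (2 * q))) := by ring
      rw [this] at hKS1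
      linarith
    refine g7.trans ?_
    gcongr
  calc ‖∑ k ∈ Icc 1 M, b k * ∑ p ∈ D, c p k‖ ^ 2
      ≤ M * (2 * R * (3 * X * (4 * L) * (V + 2 * KS))) :=
        h2.trans (by gcongr; exact h3.trans h6)
    _ ≤ 2 * X / R * (2 * R * (3 * X * (4 * L) * (V + 2 * KS))) := by
        gcongr
    _ = 48 * X ^ 2 * L * (V + 2 * KS) := by
        field_simp
        norm_num
    _ ≤ 48 * X ^ 2 * L * ((1 + 2 * C0) * (2 * L *
          (1 / q + 1 / R + (R + q) * Real.log (2 * q) / L))) := by gcongr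
    _ = _ := by ring

end Pool.Agent.Helper40.MR
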